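import Pool.Agent.Helper10K1.ML.Stm

/-! Project ML (helper10), piece FIN: defining systems are homomorphisms to pairs of unitriangular
matrices. -/

set_option autoImplicit false

namespace Pool.Agent.Helper24.ML

open Pool.Agent.Helper10K1.ML

universe u

section alg

variable {p : ℕ} {Γ : Type u}

/-- the entries of the unitriangular matrix -/
def ut (a : ℕ → ℕ → Γ → ZMod p) (g : Γ) (i j : ℕ) : ZMod p :=
  if i = j then 1 else if i < j then - a i j g else 0

theorem ut_diag (a : ℕ → ℕ → Γ → ZMod p) (g : Γ) (i : ℕ) : ut a g i i = 1 := by simp [ut]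

theorem ut_lt (a : ℕ → ℕ → Γ → ZMod p) (g : Γ) {i j : ℕ} (h : i < j) : ut a g i j = - a i j g := by
  simp [ut, h, h.ne]

theorem ut_gt (a : ℕ → ℕ → Γ → ZMod p) (g : Γ) {i j : ℕ} (h : j < i) : ut a g i j = 0 := by
  simp [ut, h.ne', h.not_gt]

theorem sum_tri (n : ℕ) (v w : ℕ → ℕ → ZMod p) (hv : ∀ i j, j < i → v i j = 0) (hv1 : ∀ i, v i i = 1)
    (hw : ∀ i j, j < i → w i j = 0) (hw1 : ∀ i, w i i = 1) (i j : ℕ) (hij : i < j) (hj : j < n) :
    ∑ k ∈ Finset.range n, v i k * w k j = v i j + (w i j + ∑ k ∈ Finset.Ioo i j, v i k * w k j) := by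
  have hsub : Finset.Icc i j ⊆ Finset.range n := by
    intro k hk
    rw [Finset.mem_Icc] at hk
    rw [Finset.mem_range]
    omega
  rw [← Finset.sum_subset hsub, ← Finset.Ico_insert_right hij.le, Finset.sum_insert (by simp),
    ← Finset.Ioo_insert_left hij, Finset.sum_insert (by simp), hv1, hw1, mul_one, one_mul]
  intro k _ hk
  rw [Finset.mem_Icc, not_and_or, not_le, not_le] at hk
  rcases hk with hk | hk
  · rw [hv i k hk, zero_mul]
  · rw [hw k j hk, mul_zero]

theorem sum_tri_diag (n : ℕ) (v w : ℕ → ℕ → ZMod p) (hv : ∀ i j, j < i → v i j = 0)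
    (hv1 : ∀ i, v i i = 1) (hw : ∀ i j, j < i → w i j = 0) (hw1 : ∀ i, w i i = 1) (i : ℕ)
    (hj : i < n) : ∑ k ∈ Finset.range n, v i k * w k i = 1 := by
  rw [Finset.sum_eq_single_of_mem i (Finset.mem_range.2 hj), hv1, hw1, mul_one]
  intro k _ hk
  rcases lt_or_gt_of_ne hk with hk | hk
  · rw [hv i k hk, zero_mul]
  · rw [hw k i hk, mul_zero]

theorem sum_tri_zero (n : ℕ) (v w : ℕ → ℕ → ZMod p) (hv : ∀ i j, j < i → v i j = 0)
    (hw : ∀ i j, j < i → w i j = 0) (i j : ℕ)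
    (hj : j < i) : ∑ k ∈ Finset.range n, v i k * w k j = 0 := by
  apply Finset.sum_eq_zero
  intro k _
  by_cases hk : k < i
  · rw [hv i k hk, zero_mul]
  · rw [hw k j (by omega), mul_zero]

variable [Group Γ] [TopologicalSpace Γ] {n : ℕ} {φ : ℕ → Γ → ZMod p} {a : ℕ → ℕ → Γ → ZMod p}

theorem a_one (h : DefSys p n φ a) : ∀ d i j : ℕ, j ≤ i + d → i < j → j ≤ n → (i, j) ≠ (0, n) →
    a i j 1 = 0 := by
  intro d
  induction d with
  | zero => intro i j h1 h2; omega
  | succ d ih =>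
    intro i j h1 h2 h3 h4
    have h5 := h.rel i j h2 h3 h4 1 1
    rw [mul_one, add_sub_cancel_right] at h5
    rw [h5]
    apply Finset.sum_eq_zero
    intro k hk
    rw [Finset.mem_Ioo] at hk
    rw [ih i k (by omega) hk.1 (by omega) (by intro h6; rw [Prod.mk.injEq] at h6; omega), zero_mul]

/-- the shifted block of the matrix -/
def blk (n s : ℕ) (a : ℕ → ℕ → Γ → ZMod p) (g : Γ) : Matrix (Fin n) (Fin n) (ZMod p) :=
  Matrix.of fun i j => ut a g (i + s) (j + s)

theorem ut_mul (h : DefSys p n φ a) (s : ℕ) (hs : s ≤ 1) (g k : Γ) (i j : ℕ) (hi : i < n)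
    (hj : j < n) :
    ∑ l ∈ Finset.range n, ut a g (i + s) (l + s) * ut a k (l + s) (j + s) =
      ut a (g * k) (i + s) (j + s) := by
  have hv : ∀ (g : Γ) (i j : ℕ), j < i → ut a g (i + s) (j + s) = 0 :=
    fun g i j hij => ut_gt a g (by omega)
  have hv1 : ∀ (g : Γ) (i : ℕ), ut a g (i + s) (i + s) = 1 := fun g i => ut_diag a g _
  rcases lt_trichotomy i j with hij | hij | hij
  · rw [sum_tri n (fun i j => ut a g (i + s) (j + s)) (fun i j => ut a k (i + s) (j + s)) (hv g)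
      (hv1 g) (hv k) (hv1 k) i j hij hj]
    have hr := h.rel (i + s) (j + s) (by omega) (by omega)
      (by intro h6; rw [Prod.mk.injEq] at h6; omega) g k
    have h1 : ∑ l ∈ Finset.Ioo i j, ut a g (i + s) (l + s) * ut a k (l + s) (j + s) =
        ∑ l ∈ Finset.Ioo (i + s) (j + s), a (i + s) l g * a l (j + s) k := by
      rw [← Finset.map_add_right_Ioo, Finset.sum_map]
      apply Finset.sum_congr rfl
      intro l hl
      rw [Finset.mem_Ioo] at hl
      rw [ut_lt a g (by omega : i + s < l + s), ut_lt a k (by omega : l + s < j + s), neg_mul_neg]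
      rfl
    rw [h1, ← hr, ut_lt a _ (by omega : i + s < j + s), ut_lt a _ (by omega : i + s < j + s),
      ut_lt a _ (by omega : i + s < j + s)]
    ring
  · subst hij
    rw [sum_tri_diag n (fun i j => ut a g (i + s) (j + s)) (fun i j => ut a k (i + s) (j + s)) (hv g)
      (hv1 g) (hv k) (hv1 k) i hi, hv1]
  · rw [sum_tri_zero n (fun i j => ut a g (i + s) (j + s)) (fun i j => ut a k (i + s) (j + s)) (hv g)
      (hv k) i j hij, hv _ _ _ hij]

theorem blk_mul (h : DefSys p n φ a) (s : ℕ) (hs : s ≤ 1) (g k : Γ) :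
    blk n s a (g * k) = blk n s a g * blk n s a k := by
  ext i j
  rw [Matrix.mul_apply]
  have h1 := ut_mul h s hs g k i j i.2 j.2
  rw [← Fin.sum_univ_eq_sum_range (fun l => ut a g (i + s) (l + s) * ut a k (l + s) (j + s)) n] at h1
  exact h1.symm

theorem blk_one (h : DefSys p n φ a) (s : ℕ) (hs : s ≤ 1) : blk n s a (1 : Γ) = 1 := by
  ext i j
  rw [Matrix.one_apply]
  show ut a 1 (i + s) (j + s) = _
  split_ifs with hij
  · rw [hij, ut_diag]
  · have h0 : (i : ℕ) ≠ j := fun h' => hij (Fin.ext h')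
    have hi := i.2
    have hj := j.2
    rcases lt_or_gt_of_ne h0 with h1 | h1
    · rw [ut_lt a _ (by omega : (i : ℕ) + s < j + s), a_one h (j : ℕ) _ _ (by omega) (by omega)
        (by omega) (by intro h6; rw [Prod.mk.injEq] at h6; omega), neg_zero]
    · exact ut_gt a _ (by omega)

/-- the block as a homomorphism -/
def blkHom (h : DefSys p n φ a) (s : ℕ) (hs : s ≤ 1) : Γ →* Matrix (Fin n) (Fin n) (ZMod p) where
  toFun := blk n s a
  map_one' := blk_one h s hs
  map_mul' := blk_mul h s hs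

/-- the finite group of pairs of matrices -/
abbrev QQ (p n : ℕ) : Type u :=
  ULift.{u} ((Matrix (Fin n) (Fin n) (ZMod p))ˣ × (Matrix (Fin n) (Fin n) (ZMod p))ˣ)

/-- the homomorphism to the finite group -/
def rho (h : DefSys p n φ a) : Γ →* QQ.{u} p n :=
  (MulEquiv.ulift.symm : _ ≃* QQ.{u} p n).toMonoidHom.comp
    ((blkHom h 0 (by omega)).toHomUnits.prod (blkHom h 1 le_rfl).toHomUnits)

/-- entry of a matrix -/
def ent (X : Matrix (Fin n) (Fin n) (ZMod p)) (i j : ℕ) : ZMod p :=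
  if h : i < n ∧ j < n then X ⟨i, h.1⟩ ⟨j, h.2⟩ else 0

/-- the cochain -/
def cQ (p n : ℕ) (q q' : QQ.{u} p n) : ZMod p :=
  ∑ k ∈ Finset.Ioo 0 n, ent (q.down.1 : Matrix (Fin n) (Fin n) (ZMod p)) 0 k *
    ent (q'.down.2 : Matrix (Fin n) (Fin n) (ZMod p)) (k - 1) (n - 1)

theorem cQ_rho (h : DefSys p n φ a) (g k : Γ) : cQ p n (rho h g) (rho h k) = val p n a g k := by
  refine Finset.sum_congr rfl fun l hl => ?_
  rw [Finset.mem_Ioo] at hl
  have h1 : ent (n := n) ((rho h g).down.1 : Matrix (Fin n) (Fin n) (ZMod p)) 0 l = - a 0 l g := by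
    rw [ent, dif_pos ⟨by omega, hl.2⟩]
    show ut a g (0 + 0) (l + 0) = _
    exact ut_lt a g hl.1
  have h2 : ent (n := n) ((rho h k).down.2 : Matrix (Fin n) (Fin n) (ZMod p)) (l - 1) (n - 1) =
      - a l n k := by
    rw [ent, dif_pos ⟨by omega, by omega⟩]
    show ut a k (l - 1 + 1) (n - 1 + 1) = _
    rw [Nat.sub_add_cancel (by omega), Nat.sub_add_cancel (by omega)]
    exact ut_lt a k hl.2
  rw [h1, h2, neg_mul_neg]

theorem rho_lc (h : DefSys p n φ a) : IsLocallyConstant (rho h) := by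
  rw [IsLocallyConstant.iff_eventually_eq]
  intro x
  have h1 : ∀ᶠ y in nhds x, ∀ ij ∈ (Finset.range (n + 1) ×ˢ Finset.range (n + 1)),
      ij.1 < ij.2 → (ij.1, ij.2) ≠ (0, n) → a ij.1 ij.2 y = a ij.1 ij.2 x := by
    rw [Filter.eventually_all_finset]
    intro ij hij
    rw [Finset.mem_product, Finset.mem_range, Finset.mem_range] at hij
    by_cases h2 : ij.1 < ij.2 ∧ (ij.1, ij.2) ≠ (0, n)
    · filter_upwards [(IsLocallyConstant.iff_eventually_eq _).1
        (h.lc ij.1 ij.2 h2.1 (by omega) h2.2) x] with y hy _ _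
      exact hy
    · exact Filter.Eventually.of_forall fun y h3 h4 => absurd ⟨h3, h4⟩ h2
  filter_upwards [h1] with y hy
  have h2 : ∀ s ≤ 1, blk n s a y = blk n s a x := by
    intro s hs
    ext i j
    show ut a y (i + s) (j + s) = ut a x (i + s) (j + s)
    have hi := i.2
    have hj := j.2
    rcases lt_trichotomy (i : ℕ) j with hij | hij | hij
    · rw [ut_lt a _ (by omega : (i : ℕ) + s < j + s), ut_lt a _ (by omega : (i : ℕ) + s < j + s)]
      rw [hy (i + s, j + s) (by rw [Finset.mem_product, Finset.mem_range, Finset.mem_range]; constructor <;> dsimp only <;> omega) (by dsimp only; omega)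
        (by intro h6; rw [Prod.mk.injEq] at h6; omega)]
    · rw [hij, ut_diag, ut_diag]
    · rw [ut_gt a _ (by omega : (j : ℕ) + s < i + s), ut_gt a _ (by omega : (j : ℕ) + s < i + s)]
  exact congrArg ULift.up (Prod.ext (Units.ext (h2 0 (by omega))) (Units.ext (h2 1 le_rfl)))

theorem val_cocycle (h : DefSys p n φ a) : IsCocycle p (val p n a) := by
  intro g k l
  unfold val
  have h1 : ∑ i ∈ Finset.Ioo 0 n, a 0 i (g * k) * a i n l =
      ∑ i ∈ Finset.Ioo 0 n, a 0 i g * a i n l + ∑ i ∈ Finset.Ioo 0 n, a 0 i k * a i n l -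
        ∑ i ∈ Finset.Ioo 0 n, ∑ j ∈ Finset.Ioo 0 i, a 0 j g * a j i k * a i n l := by
    rw [← Finset.sum_add_distrib, ← Finset.sum_sub_distrib]
    refine Finset.sum_congr rfl fun i hi => ?_
    rw [Finset.mem_Ioo] at hi
    have h2 := h.rel 0 i hi.1 (by omega) (by intro h6; rw [Prod.mk.injEq] at h6; omega) g k
    rw [← Finset.sum_mul, ← h2]
    ring
  have h3 : ∑ i ∈ Finset.Ioo 0 n, a 0 i g * a i n (k * l) =
      ∑ i ∈ Finset.Ioo 0 n, a 0 i g * a i n k + ∑ i ∈ Finset.Ioo 0 n, a 0 i g * a i n l -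
        ∑ i ∈ Finset.Ioo 0 n, ∑ j ∈ Finset.Ioo i n, a 0 i g * a i j k * a j n l := by
    rw [← Finset.sum_add_distrib, ← Finset.sum_sub_distrib]
    refine Finset.sum_congr rfl fun i hi => ?_
    rw [Finset.mem_Ioo] at hi
    have h2 := h.rel i n hi.2 le_rfl (by intro h6; rw [Prod.mk.injEq] at h6; omega) k l
    have h4 : ∑ j ∈ Finset.Ioo i n, a 0 i g * a i j k * a j n l =
        a 0 i g * ∑ j ∈ Finset.Ioo i n, a i j k * a j n l := by
      rw [Finset.mul_sum]
      exact Finset.sum_congr rfl fun j _ => by ring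
    rw [h4, ← h2]
    ring
  have h5 : ∑ i ∈ Finset.Ioo 0 n, ∑ j ∈ Finset.Ioo 0 i, a 0 j g * a j i k * a i n l =
      ∑ i ∈ Finset.Ioo 0 n, ∑ j ∈ Finset.Ioo i n, a 0 i g * a i j k * a j n l := by
    apply Finset.sum_comm'
    intro x y
    simp only [Finset.mem_Ioo]
    omega
  rw [h1, h3, h5]
  ring

end alg

theorem t_FIN : S_FIN.{u} := by
  intro hMQ hMS p n hp hn
  have : Fact p.Prime := ⟨hp⟩
  obtain ⟨M, hM⟩ := hMQ p hp (hMS p hp) (QQ.{u} p n) (cQ p n)
  refine ⟨M, fun F _ ζ hζ φ a h => ?_⟩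
  have h1 := hM F ζ hζ (rho h) (rho_lc h)
  have h2 : (fun g k => cQ p n (rho h g) (rho h k)) = val p n a := by
    funext g k
    exact cQ_rho h g k
  rw [h2] at h1
  exact h1 (val_cocycle h)

end Pool.Agent.Helper24.ML
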