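import Pool.Agent.Helper24.ML.FIN

/-! Project ML (helper10): the hypothesis-free form. The uniform bound for the pair `(n, p)` follows from
the finiteness of the symbol lengths of the values of the `n`-fold defining systems for `p`. -/

set_option autoImplicit false

namespace Pool.Agent.Helper24.ML

open Pool.Agent.Helper10K1.ML

universe u

/-- the bound for one finite group and one cochain on it, from the finiteness for this group and this
cochain only -/
def MAINQI : Prop := ∀ p : ℕ, p.Prime → ∀ (Q : Type u) [Group Q] [Finite Q]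
  (c : Q → Q → ZMod p),
  (∀ (F : Type u) [Field F] (ζ : F), IsPrimitiveRoot ζ p →
    ∀ ρ : Gp p F →* Q, IsLocallyConstant ρ → IsCocycle p (fun g h => c (ρ g) (ρ h)) →
      ∃ m, SL p m (fun g h => c (ρ g) (ρ h))) →
  ∃ M : ℕ, ∀ (F : Type u) [Field F] (ζ : F), IsPrimitiveRoot ζ p →
    ∀ ρ : Gp p F →* Q, IsLocallyConstant ρ → IsCocycle p (fun g h => c (ρ g) (ρ h)) →
      SL p M (fun g h => c (ρ g) (ρ h))

/-- the answer, pair by pair -/
def ANSWERI : Prop := ∀ (p n : ℕ), p.Prime → 2 ≤ n →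
  (∀ (F : Type u) [Field F] (ζ : F), IsPrimitiveRoot ζ p →
    ∀ (φ : ℕ → Gp p F → ZMod p) (a : ℕ → ℕ → Gp p F → ZMod p), DefSys p n φ a →
      ∃ m, SL p m (val p n a)) →
  ∃ M : ℕ, ∀ (F : Type u) [Field F] (ζ : F), IsPrimitiveRoot ζ p →
    ∀ (φ : ℕ → Gp p F → ZMod p) (a : ℕ → ℕ → Gp p F → ZMod p), DefSys p n φ a →
      SL p M (val p n a)

/-- **PIECE FINI** -/
def S_FINI : Prop := MAINQI.{u} → ANSWERI.{u}

section alg

variable {p n : ℕ}

theorem sum_tri' (v w : ℕ → ℕ → ZMod p) (hv : ∀ i j, j < i → v i j = 0)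
    (hw : ∀ i j, j < i → w i j = 0) (i j : ℕ) (hv1 : v i i = 1) (hw1 : w j j = 1)
    (hij : i < j) (hj : j < n) :
    ∑ k ∈ Finset.range n, v i k * w k j = v i j + (w i j + ∑ k ∈ Finset.Ioo i j, v i k * w k j) := by
  have hsub : Finset.Icc i j ⊆ Finset.range n := by
    intro k hk
    rw [Finset.mem_Icc] at hk
    rw [Finset.mem_range]
    omega
  rw [← Finset.sum_subset hsub, ← Finset.Ico_insert_right hij.le, Finset.sum_insert (by simp),
    ← Finset.Ioo_insert_left hij, Finset.sum_insert (by simp), hv1, hw1, mul_one, one_mul]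
  intro k _ hk
  rw [Finset.mem_Icc, not_and_or, not_le, not_le] at hk
  rcases hk with hk | hk
  · rw [hv i k hk, zero_mul]
  · rw [hw k j hk, mul_zero]

theorem sum_tri_diag' (v w : ℕ → ℕ → ZMod p) (hv : ∀ i j, j < i → v i j = 0)
    (hw : ∀ i j, j < i → w i j = 0) (i : ℕ) (hv1 : v i i = 1) (hw1 : w i i = 1)
    (hj : i < n) : ∑ k ∈ Finset.range n, v i k * w k i = 1 := by
  rw [Finset.sum_eq_single_of_mem i (Finset.mem_range.2 hj), hv1, hw1, mul_one]
  intro k _ hk
  rcases lt_or_gt_of_ne hk with hk | hk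
  · rw [hv i k hk, zero_mul]
  · rw [hw k i hk, mul_zero]

theorem ent_mul (X Y : Matrix (Fin n) (Fin n) (ZMod p)) (i j : ℕ) (hi : i < n) (hj : j < n) :
    ent (X * Y) i j = ∑ k ∈ Finset.range n, ent X i k * ent Y k j := by
  rw [← Fin.sum_univ_eq_sum_range (fun k => ent X i k * ent Y k j) n]
  rw [ent, dif_pos ⟨hi, hj⟩, Matrix.mul_apply]
  refine Finset.sum_congr rfl fun k _ => ?_
  rw [ent, ent, dif_pos ⟨hi, k.2⟩, dif_pos ⟨k.2, hj⟩]

theorem ent_out (X : Matrix (Fin n) (Fin n) (ZMod p)) (i j : ℕ) (h : ¬ (i < n ∧ j < n)) :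
    ent X i j = 0 := by
  rw [ent, dif_neg h]

/-- unitriangular -/
structure UTri (X : Matrix (Fin n) (Fin n) (ZMod p)) : Prop where
  z : ∀ i j, j < i → ent X i j = 0
  o : ∀ i, i < n → ent X i i = 1

theorem UTri.one : UTri (1 : Matrix (Fin n) (Fin n) (ZMod p)) := by
  constructor
  · intro i j hij
    by_cases h : i < n ∧ j < n
    · rw [ent, dif_pos h, Matrix.one_apply, if_neg]
      intro h1
      have := congrArg Fin.val h1
      dsimp only at this
      omega
    · exact ent_out _ _ _ h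
  · intro i hi
    rw [ent, dif_pos ⟨hi, hi⟩, Matrix.one_apply, if_pos rfl]

theorem UTri.mul {X Y : Matrix (Fin n) (Fin n) (ZMod p)} (hX : UTri X) (hY : UTri Y) :
    UTri (X * Y) := by
  constructor
  · intro i j hij
    by_cases h : i < n ∧ j < n
    · rw [ent_mul X Y i j h.1 h.2]
      exact sum_tri_zero n (ent X) (ent Y) hX.z hY.z i j hij
    · exact ent_out _ _ _ h
  · intro i hi
    rw [ent_mul X Y i i hi hi]
    exact sum_tri_diag' (ent X) (ent Y) hX.z hY.z i (hX.o i hi) (hY.o i hi) hi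

theorem UTri.mul_apply {X Y : Matrix (Fin n) (Fin n) (ZMod p)} (hX : UTri X) (hY : UTri Y)
    (i j : ℕ) (hij : i < j) (hj : j < n) :
    ent (X * Y) i j = ent X i j + (ent Y i j + ∑ k ∈ Finset.Ioo i j, ent X i k * ent Y k j) := by
  rw [ent_mul X Y i j (by omega) hj]
  exact sum_tri' (ent X) (ent Y) hX.z hY.z i j (hX.o i (by omega)) (hY.o j hj) hij hj

/-- compatible pairs of unitriangular matrices -/
structure Good (q : QQ.{u} p n) : Prop where
  a : UTri (q.down.1 : Matrix (Fin n) (Fin n) (ZMod p))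
  b : UTri (q.down.2 : Matrix (Fin n) (Fin n) (ZMod p))
  s : ∀ i j, i < j → j + 1 < n → ent (q.down.2 : Matrix (Fin n) (Fin n) (ZMod p)) i j =
    ent (q.down.1 : Matrix (Fin n) (Fin n) (ZMod p)) (i + 1) (j + 1)

theorem Good.one : Good (1 : QQ.{u} p n) := by
  refine ⟨UTri.one, UTri.one, ?_⟩
  intro i j hij hj
  show ent (1 : Matrix (Fin n) (Fin n) (ZMod p)) i j = ent (1 : Matrix (Fin n) (Fin n) (ZMod p)) _ _
  rw [ent, dif_pos ⟨by omega, by omega⟩, Matrix.one_apply, if_neg, ent, dif_pos ⟨by omega, by omega⟩,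
    Matrix.one_apply, if_neg]
  · intro h1
    have := congrArg Fin.val h1
    dsimp only at this
    omega
  · intro h1
    have := congrArg Fin.val h1
    dsimp only at this
    omega

theorem Good.mul {q r : QQ.{u} p n} (hq : Good q) (hr : Good r) : Good (q * r) := by
  refine ⟨hq.a.mul hr.a, hq.b.mul hr.b, ?_⟩
  intro i j hij hj
  show ent ((q.down.2 : Matrix (Fin n) (Fin n) (ZMod p)) * (r.down.2 : Matrix (Fin n) (Fin n) (ZMod p)))
    i j = ent ((q.down.1 : Matrix (Fin n) (Fin n) (ZMod p)) *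
      (r.down.1 : Matrix (Fin n) (Fin n) (ZMod p))) (i + 1) (j + 1)
  rw [hq.b.mul_apply hr.b i j hij (by omega), hq.a.mul_apply hr.a (i + 1) (j + 1) (by omega) hj,
    hq.s i j hij hj, hr.s i j hij hj, ← Finset.map_add_right_Ioo, Finset.sum_map]
  congr 2
  refine Finset.sum_congr rfl fun k hk => ?_
  rw [Finset.mem_Ioo] at hk
  rw [hq.s i k hk.1 (by omega), hr.s k j hk.2 hj]
  rfl

variable [Fact p.Prime]

theorem Good.inv {q : QQ.{u} p n} (hq : Good q) : Good q⁻¹ := by
  have h1 : ∀ k : ℕ, Good (q ^ k) := by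
    intro k
    induction k with
    | zero => rw [pow_zero]; exact Good.one
    | succ k ih => rw [pow_succ]; exact ih.mul hq
  have h2 : q⁻¹ = q ^ (orderOf q - 1) := by
    apply inv_eq_of_mul_eq_one_right
    rw [← pow_succ', Nat.sub_add_cancel (orderOf_pos q), pow_orderOf_eq_one]
  rw [h2]
  exact h1 _

/-- the subgroup of the compatible pairs of unitriangular matrices -/
def SS (p n : ℕ) [Fact p.Prime] : Subgroup (QQ.{u} p n) where
  carrier := {q | Good q}
  one_mem' := Good.one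
  mul_mem' := Good.mul
  inv_mem' := Good.inv

variable {Γ : Type u} [Group Γ] [TopologicalSpace Γ] {φ : ℕ → Γ → ZMod p} {a : ℕ → ℕ → Γ → ZMod p}

omit [Fact p.Prime] [Group Γ] [TopologicalSpace Γ] in
theorem ent_blk (s : ℕ) (a : ℕ → ℕ → Γ → ZMod p) (g : Γ) (i j : ℕ) (hi : i < n) (hj : j < n) :
    ent (blk n s a g) i j = ut a g (i + s) (j + s) := by
  rw [ent, dif_pos ⟨hi, hj⟩]
  rfl

omit [Fact p.Prime] [Group Γ] [TopologicalSpace Γ] in
theorem utri_blk (s : ℕ) (a : ℕ → ℕ → Γ → ZMod p) (g : Γ) : UTri (blk n s a g) := by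
  constructor
  · intro i j hij
    by_cases h : i < n ∧ j < n
    · rw [ent_blk s a g i j h.1 h.2]
      exact ut_gt a g (by omega)
    · exact ent_out _ _ _ h
  · intro i hi
    rw [ent_blk s a g i i hi hi]
    exact ut_diag a g _

omit [Fact p.Prime] in
theorem good_rho (h : DefSys p n φ a) (g : Γ) : Good (rho h g) := by
  refine ⟨utri_blk 0 a g, utri_blk 1 a g, ?_⟩
  intro i j hij hj
  show ent (blk n 1 a g) i j = ent (blk n 0 a g) (i + 1) (j + 1)
  rw [ent_blk 1 a g i j (by omega) (by omega), ent_blk 0 a g (i + 1) (j + 1) (by omega) (by omega)]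

/-- the defining system of a homomorphism -/
def aa (σ : Γ → QQ.{u} p n) (i j : ℕ) (g : Γ) : ZMod p :=
  if j < n then - ent ((σ g).down.1 : Matrix (Fin n) (Fin n) (ZMod p)) i j
  else - ent ((σ g).down.2 : Matrix (Fin n) (Fin n) (ZMod p)) (i - 1) (n - 1)

theorem defSys_aa (σ : Γ →* SS.{u} p n) (hσ : IsLocallyConstant σ) :
    DefSys p n (fun i => aa (fun g => (σ g).1) i (i + 1)) (aa (fun g => (σ g).1)) := by
  refine ⟨?_, fun i _ => rfl, ?_⟩
  · intro i j _ _ _
    exact hσ.comp (fun q : SS.{u} p n => if j < n then - ent (q.1.down.1 : Matrix (Fin n) (Fin n) (ZMod p)) i j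
      else - ent (q.1.down.2 : Matrix (Fin n) (Fin n) (ZMod p)) (i - 1) (n - 1))
  · intro i j hij hj hne g h
    have hg : Good (σ g).1 := (σ g).2
    have hh : Good (σ h).1 := (σ h).2
    have hm : (σ (g * h)).1 = (σ g).1 * (σ h).1 := by rw [map_mul]; rfl
    rcases Nat.lt_or_ge j n with hjn | hjn
    · have h1 := hg.a.mul_apply hh.a i j hij hjn
      have h2 : aa (fun g => (σ g).1) i j (g * h) =
          - ent (((σ g).1.down.1 : Matrix (Fin n) (Fin n) (ZMod p)) *
            ((σ h).1.down.1 : Matrix (Fin n) (Fin n) (ZMod p))) i j := by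
        rw [aa, if_pos hjn, hm]
        rfl
      rw [h2, h1, aa, if_pos hjn, aa, if_pos hjn]
      have h3 : ∑ k ∈ Finset.Ioo i j, aa (fun g => (σ g).1) i k g * aa (fun g => (σ g).1) k j h =
          ∑ k ∈ Finset.Ioo i j, ent ((σ g).1.down.1 : Matrix (Fin n) (Fin n) (ZMod p)) i k *
            ent ((σ h).1.down.1 : Matrix (Fin n) (Fin n) (ZMod p)) k j := by
        refine Finset.sum_congr rfl fun k hk => ?_
        rw [Finset.mem_Ioo] at hk
        rw [aa, if_pos (by omega), aa, if_pos hjn, neg_mul_neg]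
      rw [h3]
      ring
    · obtain rfl : j = n := le_antisymm hj hjn
      have hi : 1 ≤ i := by
        rcases Nat.eq_zero_or_pos i with h0 | h0
        · exact absurd (by rw [h0]) hne
        · exact h0
      have h1 := hg.b.mul_apply hh.b (i - 1) (j - 1) (by omega) (by omega)
      have h2 : aa (fun g => (σ g).1) i j (g * h) =
          - ent (((σ g).1.down.2 : Matrix (Fin j) (Fin j) (ZMod p)) *
            ((σ h).1.down.2 : Matrix (Fin j) (Fin j) (ZMod p))) (i - 1) (j - 1) := by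
        rw [aa, if_neg (lt_irrefl j), hm]
        rfl
      rw [h2, h1, aa, if_neg (lt_irrefl j), aa, if_neg (lt_irrefl j)]
      have h3 : ∑ k ∈ Finset.Ioo i j, aa (fun g => (σ g).1) i k g * aa (fun g => (σ g).1) k j h =
          ∑ k ∈ Finset.Ioo (i - 1) (j - 1),
            ent ((σ g).1.down.2 : Matrix (Fin j) (Fin j) (ZMod p)) (i - 1) k *
            ent ((σ h).1.down.2 : Matrix (Fin j) (Fin j) (ZMod p)) k (j - 1) := by
        obtain ⟨i, rfl⟩ : ∃ i', i = i' + 1 := ⟨i - 1, by omega⟩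
        have h5 : Finset.Ioo (i + 1) j = Finset.Ioo (i + 1) (j - 1 + 1) := by
          rw [Nat.sub_add_cancel (by omega)]
        rw [h5, ← Finset.map_add_right_Ioo, Finset.sum_map, Nat.add_sub_cancel]
        refine Finset.sum_congr rfl fun k hk => ?_
        rw [Finset.mem_Ioo] at hk
        show aa (fun g => (σ g).1) (i + 1) (k + 1) g * aa (fun g => (σ g).1) (k + 1) j h = _
        rw [aa, if_pos (by omega), aa, if_neg (lt_irrefl j), neg_mul_neg, Nat.add_sub_cancel,
          hg.s i k hk.1 (by omega)]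
      rw [h3]
      ring

omit [TopologicalSpace Γ] in
theorem val_aa (σ : Γ →* SS.{u} p n) (g h : Γ) :
    val p n (aa (fun g => (σ g).1)) g h = cQ p n (σ g).1 (σ h).1 := by
  refine Finset.sum_congr rfl fun k hk => ?_
  rw [Finset.mem_Ioo] at hk
  rw [aa, if_pos hk.2, aa, if_neg (lt_irrefl n), neg_mul_neg]

end alg

theorem t_FINI : S_FINI.{u} := by
  intro hMQ p n hp hn hfin
  have : Fact p.Prime := ⟨hp⟩
  obtain ⟨M, hM⟩ := hMQ p hp (SS.{u} p n) (fun q r => cQ p n q.1 r.1) (by
    intro F _ ζ hζ ρ hρ _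
    obtain ⟨m, hm⟩ := hfin F ζ hζ _ _ (defSys_aa ρ hρ)
    refine ⟨m, ?_⟩
    have h2 : (fun g h => cQ p n (ρ g).1 (ρ h).1) = val p n (aa (fun g => (ρ g).1)) := by
      funext g h
      exact (val_aa ρ g h).symm
    rw [h2]
    exact hm)
  refine ⟨M, fun F _ ζ hζ φ a h => ?_⟩
  have h0 : ∀ g, rho h g ∈ SS.{u} p n := fun g => good_rho h g
  have h1 := hM F ζ hζ ((rho h).codRestrict (SS.{u} p n) h0) (by
    have h3 := rho_lc h
    rw [IsLocallyConstant.iff_eventually_eq] at h3 ⊢
    intro x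
    filter_upwards [h3 x] with y hy
    exact Subtype.ext hy)
  have h2 : (fun g k => cQ p n ((rho h).codRestrict (SS.{u} p n) h0 g).1
      ((rho h).codRestrict (SS.{u} p n) h0 k).1) = val p n a := by
    funext g k
    exact cQ_rho h g k
  rw [h2] at h1
  exact h1 (val_cocycle h)

end Pool.Agent.Helper24.ML
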