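import Pool.Agent.Helper10K1.ML.Stm

/-! Project ML (helper10), piece P2: homomorphisms with an image of `p`-power order factor through the
maximal pro-`p` quotient. -/

set_option autoImplicit false

namespace Pool.Agent.Helper24.ML

open Pool.Agent.Helper10K1.ML

universe u

theorem lc_of_ker {Γ Q : Type u} [Group Γ] [TopologicalSpace Γ] [IsTopologicalGroup Γ] [Group Q]
    (ρ : Γ →* Q) (h : IsOpen (ρ.ker : Set Γ)) : IsLocallyConstant ρ := by
  rw [IsLocallyConstant.iff_exists_open]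
  intro x
  refine ⟨(fun y => x⁻¹ * y) ⁻¹' (ρ.ker : Set Γ), h.preimage (continuous_const_mul _), ?_, ?_⟩
  · simp
  · intro y hy
    have h1 : x⁻¹ * y ∈ ρ.ker := hy
    rw [MonoidHom.mem_ker, map_mul, map_inv] at h1
    exact (inv_mul_eq_one.1 h1).symm

theorem t_P2 : S_P2.{u} := by
  intro p F _ hp Q _ _ ρ hρ hpow
  have hle : Np p (G F) ≤ ρ.ker := by
    refine iInf_le_of_le ⟨ρ.ker, inferInstance, hρ, ?_⟩ le_rfl
    rw [Subgroup.index_ker]
    have : Fact p.Prime := ⟨hp⟩
    have hP : IsPGroup p ρ.range := by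
      rintro ⟨_, g, rfl⟩
      obtain ⟨k, hk⟩ := hpow g
      exact ⟨k, Subtype.ext hk⟩
    exact IsPGroup.iff_card.1 hP
  refine ⟨QuotientGroup.lift (Np p (G F)) ρ (fun g hg => hle hg), fun g => rfl, ?_⟩
  have hl := lc_of_ker ρ hρ
  intro s
  have : IsOpen (ρ ⁻¹' s) := hl s
  rw [← QuotientGroup.isOpenQuotientMap_mk.isQuotientMap.isOpen_preimage]
  exact this

end Pool.Agent.Helper24.ML
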